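import Pool.Agent.R448.TW.Twin

/-!
# Multigraphs containing many copies of the complete graph
-/

set_option autoImplicit false

namespace Pool.Agent.R448.NC

open Finset Pool.Agent.R448.TW

theorem ia {V : Type} (π : Equiv.Perm V) (v : V) : π⁻¹ (π v) = v := π.symm_apply_apply v

theorem ai {V : Type} (π : Equiv.Perm V) (v : V) : π (π⁻¹ v) = v := π.apply_symm_apply v

/-- A permutation without fixed points has a colouring with three colours in which consecutive
elements have different colours. -/
theorem three_col {V : Type} [Fintype V] [DecidableEq V] (π : Equiv.Perm V) (h : ∀ v, π v ≠ v) :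
    ∃ c : V → Fin 3, ∀ v, c v ≠ c (π v) := by
  classical
  obtain ⟨A, hA1, hA2⟩ : ∃ A : Finset V, (∀ v ∈ A, π v ∉ A) ∧
      ∀ v, v ∉ A → π v ∈ A ∨ π⁻¹ v ∈ A := by
    obtain ⟨A, hA, hmax⟩ := exists_max_image
      (univ.filter fun A : Finset V => ∀ v ∈ A, π v ∉ A) Finset.card ⟨∅, by simp⟩
    have hA' : ∀ v ∈ A, π v ∉ A := (mem_filter.1 hA).2
    refine ⟨A, hA', fun v hv => ?_⟩
    by_contra hcon
    push Not at hcon
    obtain ⟨h1, h2⟩ := hcon
    have h3 : insert v A ∈ univ.filter fun A : Finset V => ∀ v ∈ A, π v ∉ A := by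
      refine mem_filter.2 ⟨mem_univ _, fun x hx => ?_⟩
      rcases mem_insert.1 hx with rfl | hx
      · rw [mem_insert]
        rintro (h4 | h4)
        · exact h _ h4
        · exact h1 h4
      · rw [mem_insert]
        rintro (h4 | h4)
        · apply h2
          rw [← h4, ia]
          exact hx
        · exact hA' x hx h4
    have h5 := hmax _ h3
    rw [card_insert_of_notMem hv] at h5
    omega
  refine ⟨fun v => if v ∈ A then 2 else if π⁻¹ v ∈ A then 0 else 1, fun v => ?_⟩
  show (if v ∈ A then (2 : Fin 3) else if π⁻¹ v ∈ A then 0 else 1) ≠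
    (if π v ∈ A then (2 : Fin 3) else if π⁻¹ (π v) ∈ A then 0 else 1)
  rw [ia]
  by_cases h1 : v ∈ A
  · rw [if_pos h1, if_neg (hA1 v h1), if_pos h1]
    decide
  · rw [if_neg h1]
    by_cases h2 : π v ∈ A
    · rw [if_pos h2]
      split_ifs <;> decide
    · rw [if_neg h2, if_neg h1]
      rcases hA2 v h1 with h3 | h3
      · exact absurd h3 h2
      · rw [if_pos h3]
        decide

/-- pairing of the elements with the same value -/
theorem exists_inv {V : Type} [Fintype V] [DecidableEq V] (f : V → Fin 3)
    (hf : ∀ a, Even (univ.filter (fun v => f v = a)).card) :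
    ∃ N : V → V, (∀ v, N (N v) = v) ∧ (∀ v, N v ≠ v) ∧ ∀ v, f (N v) = f v := by
  classical
  have h1 : ∀ a, ∃ τ : {v // f v = a} → {v // f v = a}, (∀ x, τ (τ x) = x) ∧ ∀ x, τ x ≠ x := by
    intro a
    obtain ⟨m, hm⟩ := hf a
    have h2 : Fintype.card {v // f v = a} = Fintype.card (Fin m ⊕ Fin m) := by
      rw [Fintype.card_subtype, hm, Fintype.card_sum, Fintype.card_fin]
    let e := Fintype.equivOfCardEq h2
    refine ⟨fun x => e.symm (e x).swap, fun x => ?_, fun x hx => ?_⟩
    · simp
    · have h3 : (e x).swap = e x := by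
        have := congrArg e hx
        simpa using this
      rcases hy : e x with y | y
      · rw [hy] at h3; simp at h3
      · rw [hy] at h3; simp at h3
  choose τ h2 h3 using h1
  refine ⟨fun v => (τ (f v) ⟨v, rfl⟩).1, fun v => ?_, fun v hv => ?_, fun v => ?_⟩
  · have h4 : ∀ (a : Fin 3) (w : V) (hw : f w = a), (τ (f w) ⟨w, rfl⟩).1 = (τ a ⟨w, hw⟩).1 := by
      intro a w hw
      subst hw
      rfl
    show (τ (f (τ (f v) ⟨v, rfl⟩).1) ⟨(τ (f v) ⟨v, rfl⟩).1, rfl⟩).1 = v
    rw [h4 (f v) _ (τ (f v) ⟨v, rfl⟩).2]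
    have h5 : (⟨(τ (f v) ⟨v, rfl⟩).1, (τ (f v) ⟨v, rfl⟩).2⟩ : {w // f w = f v}) =
        τ (f v) ⟨v, rfl⟩ := rfl
    rw [h5, h2]
  · exact h3 (f v) ⟨v, rfl⟩ (Subtype.ext hv)
  · exact (τ (f v) ⟨v, rfl⟩).2

/-- the three perfect matchings made from a permutation without fixed points -/
theorem three {V : Type} [Fintype V] [DecidableEq V] (hV : Even (Fintype.card V))
    (π : Equiv.Perm V) (h : ∀ v, π v ≠ v) :
    ∃ (N : V → V) (M : Fin 3 → V → V), (∀ v, N (N v) = v) ∧ (∀ v, N v ≠ v) ∧
      (∀ a v, M a (M a v) = v) ∧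
      ∀ v w, (∑ a, if M a v = w then 1 else 0) = (if π v = w then 1 else 0) +
        (if π w = v then 1 else 0) + (if N v = w then 1 else 0 : ℕ) := by
  classical
  obtain ⟨c, hc⟩ := three_col π h
  have hc' : ∀ v, c v ≠ c (π⁻¹ v) := by
    intro v hv
    apply hc (π⁻¹ v)
    rw [ai]
    exact hv.symm
  have third : ∀ x y : Fin 3, x ≠ y → ∃ z, z ≠ x ∧ z ≠ y ∧ ∀ t, t = x ∨ t = y ∨ t = z := by
    decide
  choose m hm1 hm2 hm3 using fun v => third (c v) (c (π⁻¹ v)) (hc' v)
  have hmiss : ∀ v a, m v = a ↔ (c v ≠ a ∧ c (π⁻¹ v) ≠ a) := by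
    intro v a
    constructor
    · rintro rfl
      exact ⟨(hm1 v).symm, (hm2 v).symm⟩
    · rintro ⟨h1, h2⟩
      rcases hm3 v a with h3 | h3 | h3
      · exact absurd h3.symm h1
      · exact absurd h3.symm h2
      · exact h3.symm
  have heven : ∀ a, Even (univ.filter (fun v => m v = a)).card := by
    intro a
    have h1 : (univ.filter (fun v => c v = a)).card = (univ.filter (fun v => c (π⁻¹ v) = a)).card := by
      refine card_bij (fun v _ => π v) ?_ ?_ ?_
      · intro v hv
        refine mem_filter.2 ⟨mem_univ _, ?_⟩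
        rw [ia]
        exact (mem_filter.1 hv).2
      · intro v _ w _ hvw
        exact π.injective hvw
      · intro v hv
        exact ⟨π⁻¹ v, mem_filter.2 ⟨mem_univ _, (mem_filter.1 hv).2⟩,
          ai π v⟩
    have h2 : (univ.filter (fun v => m v = a)).card + (univ.filter (fun v => c v = a)).card +
        (univ.filter (fun v => c (π⁻¹ v) = a)).card = Fintype.card V := by
      rw [card_filter, card_filter, card_filter, ← sum_add_distrib, ← sum_add_distrib]
      rw [← card_univ, card_eq_sum_ones]
      refine sum_congr rfl fun v _ => ?_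
      by_cases h3 : c v = a
      · have h4 : c (π⁻¹ v) ≠ a := fun h4 => hc' v (h3.trans h4.symm)
        have h5 : m v ≠ a := fun h5 => hm1 v (h5.trans h3.symm)
        rw [if_neg h5, if_pos h3, if_neg h4]
      · by_cases h4 : c (π⁻¹ v) = a
        · have h5 : m v ≠ a := fun h5 => hm2 v (h5.trans h4.symm)
          rw [if_neg h5, if_neg h3, if_pos h4]
        · rw [if_pos ((hmiss v a).2 ⟨h3, h4⟩), if_neg h3, if_neg h4]
    rw [← h1] at h2
    obtain ⟨t, ht⟩ := hV
    rw [ht] at h2
    refine ⟨t - (univ.filter (fun v => c v = a)).card, ?_⟩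
    omega
  obtain ⟨N, hN1, hN2, hN3⟩ := exists_inv m heven
  let M : Fin 3 → V → V := fun a v => if c v = a then π v else if c (π⁻¹ v) = a then π⁻¹ v else N v
  have hM1 : ∀ v, M (c v) v = π v := fun v => if_pos rfl
  have hM2 : ∀ v, M (c (π⁻¹ v)) v = π⁻¹ v := by
    intro v
    show (if c v = c (π⁻¹ v) then _ else _) = _
    rw [if_neg (hc' v), if_pos rfl]
  have hM3 : ∀ v, M (m v) v = N v := by
    intro v
    show (if c v = m v then _ else _) = _
    rw [if_neg (hm1 v).symm, if_neg (hm2 v).symm]
  refine ⟨N, M, hN1, hN2, ?_, ?_⟩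
  · intro a v
    rcases hm3 v a with rfl | rfl | rfl
    · rw [hM1]
      have := hM2 (π v)
      rwa [ia] at this
    · rw [hM2]
      have := hM1 (π⁻¹ v)
      rwa [ai] at this
    · rw [hM3]
      have := hM3 (N v)
      rwa [hN3, hN1] at this
  · intro v w
    have hu : (univ : Finset (Fin 3)) = {c v, c (π⁻¹ v), m v} := by
      ext t
      simp only [mem_univ, mem_insert, mem_singleton, true_iff]
      exact hm3 v t
    have e1 : c v ∉ ({c (π⁻¹ v), m v} : Finset (Fin 3)) := by
      simp only [mem_insert, mem_singleton, not_or]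
      exact ⟨hc' v, (hm1 v).symm⟩
    have e2 : c (π⁻¹ v) ∉ ({m v} : Finset (Fin 3)) := by
      simp only [mem_singleton]
      exact (hm2 v).symm
    rw [hu, sum_insert e1, sum_insert e2, sum_singleton, hM1, hM2, hM3, ← add_assoc]
    have e3 : (π⁻¹ v = w) ↔ (π w = v) := by
      constructor
      · intro h1; rw [← h1, ai]
      · intro h1; rw [← h1, ia]
    simp only [e3]

/-- a matrix with row and column sums one is the matrix of a permutation -/
theorem perm_of {V : Type} [Fintype V] [DecidableEq V] (X : V → V → ℕ)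
    (h1 : ∀ v, ∑ w, X v w = 1) (h2 : ∀ v, ∑ w, X w v = 1) :
    ∃ π : Equiv.Perm V, ∀ v w, X v w = if π v = w then 1 else 0 := by
  classical
  have key : ∀ f : V → ℕ, ∑ w, f w = 1 → ∃ w, f w = 1 ∧ ∀ z, z ≠ w → f z = 0 := by
    intro f hf
    obtain ⟨w, hw⟩ : ∃ w, f w ≠ 0 := by
      by_contra hcon
      push Not at hcon
      rw [sum_eq_zero (fun w _ => hcon w)] at hf
      omega
    have h3 := add_sum_erase univ f (mem_univ w)
    rw [hf] at h3
    have h4 : ∑ x ∈ univ.erase w, f x = 0 := by omega
    refine ⟨w, by omega, fun z hz => ?_⟩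
    exact (sum_eq_zero_iff.1 h4) z (mem_erase.2 ⟨hz, mem_univ _⟩)
  choose g hg1 hg2 using fun v => key (X v) (h1 v)
  have hinj : Function.Injective g := by
    intro v w hvw
    obtain ⟨z, hz1, hz2⟩ := key (fun x => X x (g v)) (h2 (g v))
    by_contra hne
    have h3 : v = z := by
      by_contra h4
      have h6 : X v (g v) = 0 := hz2 v h4
      rw [hg1] at h6
      omega
    have h4 : w = z := by
      by_contra h5
      have h6 : X w (g v) = 0 := hz2 w h5
      rw [hvw, hg1] at h6
      omega
    exact hne (h3.trans h4.symm)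
  refine ⟨Equiv.ofBijective g (Finite.injective_iff_bijective.1 hinj), fun v w => ?_⟩
  rw [Equiv.ofBijective_apply]
  by_cases h3 : g v = w
  · rw [if_pos h3, ← h3, hg1]
  · rw [if_neg h3]
    exact hg2 v w (Ne.symm h3)

/-- one-factorization of the complete graph, and of the complete graph without a perfect matching -/
theorem complete {V : Type} [Fintype V] [DecidableEq V] (hV : Even (Fintype.card V)) :
    ∃ M : Fin (1 * (Fintype.card V - 1)) → V → V, (∀ i w, M i (M i w) = w) ∧
      ∀ w z, (univ.filter (fun i => M i w = z)).card = if w = z then 0 else 1 := by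
  classical
  obtain ⟨m, hm⟩ := hV
  obtain ⟨M, h1, _, h3⟩ := cover (W := V) (B := Unit) (fun u v => if u = v then 0 else 1)
    (fun u v => by simp only [eq_comm]) (fun u => if_pos rfl) 1 (Fintype.card V - 1)
    (fun u => by
      have e : ∑ v, ((if u = v then 0 else 1) + if u = v then 1 else 0) = Fintype.card V := by
        rw [← card_univ, card_eq_sum_ones]
        refine sum_congr rfl fun v _ => ?_
        split_ifs <;> rfl
      rw [sum_add_distrib, sum_ite_eq univ u (fun _ => 1), if_pos (mem_univ _)] at e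
      omega) (fun _ => ()) (fun u v w _ h4 h5 => by
      rw [if_neg (Ne.symm h4), if_neg (Ne.symm h5)])
    (fun _ _ _ => 0) (fun _ _ _ => rfl) (fun _ _ => rfl) (fun _ => 0) (fun _ => m)
    (fun _ _ => by simp) (fun b => by
      simp [sz]
      omega) (fun b b' => by simp)
  refine ⟨M, h1, fun w z => ?_⟩
  rw [h3, one_mul]

theorem cocktail {V : Type} [Fintype V] [DecidableEq V] (N : V → V) (hN : ∀ v, N (N v) = v)
    (hN' : ∀ v, N v ≠ v) :
    ∃ M : Fin (1 * (Fintype.card V - 2)) → V → V, (∀ i w, M i (M i w) = w) ∧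
      ∀ w z, (univ.filter (fun i => M i w = z)).card = if w = z ∨ N w = z then 0 else 1 := by
  classical
  have hcl : ∀ u v, s(u, N u) = s(v, N v) → v = u ∨ v = N u := by
    intro u v h
    rcases Sym2.eq_iff.1 h with ⟨h3, _⟩ | ⟨_, h4⟩
    · exact Or.inl h3.symm
    · exact Or.inr h4.symm
  have hsymm : ∀ u v, (u = v ∨ N u = v) ↔ (v = u ∨ N v = u) := by
    intro u v
    constructor
    · rintro (h | h)
      · exact Or.inl h.symm
      · exact Or.inr (by rw [← h, hN])
    · rintro (h | h)
      · exact Or.inl h.symm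
      · exact Or.inr (by rw [← h, hN])
  obtain ⟨M, h1, _, h3⟩ := cover (W := V) (B := Sym2 V) (fun u v => if u = v ∨ N u = v then 0 else 1)
    (fun u v => by simp only [hsymm u v]) (fun u => if_pos (Or.inl rfl)) 1 (Fintype.card V - 2)
    (fun u => by
      have e : ∑ v, ((if u = v ∨ N u = v then 0 else 1) + ((if u = v then 1 else 0) +
          if N u = v then 1 else 0)) = Fintype.card V := by
        rw [← card_univ, card_eq_sum_ones]
        refine sum_congr rfl fun v _ => ?_
        by_cases h4 : u = v
        · have h5 : N u ≠ v := by rw [← h4]; exact hN' u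
          rw [if_pos (Or.inl h4), if_pos h4, if_neg h5]
        · by_cases h5 : N u = v
          · rw [if_pos (Or.inr h5), if_neg h4, if_pos h5]
          · rw [if_neg (not_or.2 ⟨h4, h5⟩), if_neg h4, if_neg h5]
      rw [sum_add_distrib, sum_add_distrib, sum_ite_eq univ u (fun _ => 1),
        sum_ite_eq univ (N u) (fun _ => 1), if_pos (mem_univ _), if_pos (mem_univ _)] at e
      omega) (fun v => s(v, N v)) (fun u v w h4 h5 h6 => by
      rcases hcl u v h4 with rfl | rfl
      · rfl
      · have e1 : (u = w ∨ N u = w) ↔ False :=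
          ⟨fun h => h.elim (fun h => h5 h.symm) (fun h => h6 h.symm), False.elim⟩
        have e2 : (N u = w ∨ N (N u) = w) ↔ False := by
          rw [hN]
          exact ⟨fun h => h.elim (fun h => h6 h.symm) (fun h => h5 h.symm), False.elim⟩
        simp only [e1, e2])
    (fun _ _ _ => 0) (fun _ _ _ => rfl) (fun _ _ => rfl) (fun _ => 0)
    (fun b => sz (fun v => s(v, N v)) b / 2)
    (fun _ _ => by simp) (fun b => by
      have h4 : Even (sz (fun v => s(v, N v)) b) := by
        by_cases h5 : ∃ u, s(u, N u) = b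
        · obtain ⟨u, rfl⟩ := h5
          have h6 : univ.filter (fun v => s(v, N v) = s(u, N u)) = {u, N u} := by
            ext v
            simp only [mem_filter, mem_univ, true_and, mem_insert, mem_singleton]
            constructor
            · intro h; exact hcl u v h.symm
            · rintro (rfl | rfl)
              · rfl
              · rw [hN, Sym2.eq_swap]
          show Even (univ.filter (fun v => s(v, N v) = s(u, N u))).card
          rw [h6, card_pair (hN' u).symm]
          exact even_two
        · push Not at h5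
          have h6 : univ.filter (fun v => s(v, N v) = b) = ∅ :=
            filter_eq_empty_iff.2 fun v _ => h5 v
          show Even (univ.filter (fun v => s(v, N v) = b)).card
          rw [h6, card_empty]
          exact Even.zero
      obtain ⟨t, ht⟩ := h4
      omega) (fun b b' => by simp)
  refine ⟨M, h1, fun w z => ?_⟩
  rw [h3, one_mul]

/-- The decomposition, in terms of multiplicities. -/
theorem dec {V : Type} [Fintype V] [DecidableEq V] (hV : Even (Fintype.card V))
    (h2V : 2 ≤ Fintype.card V) (p : V → V → ℕ)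
    (hs : ∀ u v, p u v = p v u) (hl : ∀ u, p u u = 0) (k r μ s : ℕ)
    (hr : ∀ u, ∑ v, p u v = r) (hμ : ∀ u v, u ≠ v → μ ≤ p u v)
    (hk : k * r = k * μ * (Fintype.card V - 1) + 2 * s) (hsk : s ≤ k * μ) :
    ∃ M : Fin (k * r) → V → V, (∀ i w, M i (M i w) = w) ∧
      ∀ w z, (univ.filter (fun i => M i w = z)).card = k * p w z := by
  classical
  let S : V → V → ℕ := fun u v => if u = v then 0 else k * p u v - k * μ
  have hS0 : ∀ u, S u u = 0 := fun u => if_pos rfl
  have hS1 : ∀ u v, u ≠ v → S u v + k * μ = k * p u v := by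
    intro u v huv
    show (if u = v then 0 else k * p u v - k * μ) + k * μ = k * p u v
    rw [if_neg huv]
    exact Nat.sub_add_cancel (Nat.mul_le_mul_left k (hμ u v huv))
  have hSr : ∀ u, ∑ v, S u v = 2 * s := by
    intro u
    have e1 : ∑ v, (S u v + (if u = v then 0 else k * μ)) = k * r := by
      rw [← hr u, mul_sum]
      refine sum_congr rfl fun v _ => ?_
      by_cases h : u = v
      · subst h
        rw [if_pos rfl, hS0, hl, mul_zero, add_zero]
      · rw [if_neg h, hS1 u v h]
    have e2 : ∑ v, (if u = v then 0 else k * μ) = k * μ * (Fintype.card V - 1) := by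
      have e3 : ∑ v, ((if u = v then 0 else k * μ) + (if u = v then k * μ else 0)) =
          Fintype.card V * (k * μ) := by
        have e5 : ∀ v, (if u = v then 0 else k * μ) + (if u = v then k * μ else 0) = k * μ := by
          intro v
          split_ifs <;> simp
        rw [sum_congr rfl fun v _ => e5 v, sum_const, card_univ, smul_eq_mul]
      rw [sum_add_distrib, sum_ite_eq univ u (fun _ => k * μ), if_pos (mem_univ _)] at e3
      obtain ⟨t, ht⟩ : ∃ t, Fintype.card V = t + 1 := ⟨Fintype.card V - 1, by omega⟩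
      rw [ht] at e3 ⊢
      rw [Nat.add_sub_cancel]
      have e4 : (t + 1) * (k * μ) = k * μ * t + k * μ := by ring
      rw [e4] at e3
      exact Nat.add_right_cancel e3
    rw [sum_add_distrib, e2, hk] at e1
    omega
  obtain ⟨D, hD1, hD2, hD3⟩ := half S (fun u v => by
      by_cases h : u = v
      · subst h; rfl
      · have h1 := hS1 u v h
        have h2 := hS1 v u (Ne.symm h)
        rw [hs v u] at h2
        omega) (fun u => by rw [hS0]; exact Even.zero) (fun _ => s) hSr
  obtain ⟨X, hX1, hX2, hX3⟩ := split D s (fun _ => 1) (fun b => by rw [hD2, mul_one])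
    (fun b => by rw [hD3, mul_one])
  choose π hπ using fun i => perm_of (X i) (hX1 i) (hX2 i)
  have hfix : ∀ i v, π i v ≠ v := by
    intro i v h
    have h1 : X i v v = 1 := by rw [hπ, if_pos h]
    have h2 : X i v v ≤ D v v := by
      rw [← hX3 v v]
      exact single_le_sum (f := fun i => X i v v) (fun j _ => Nat.zero_le _) (mem_univ i)
    have h3 := hD1 v v
    rw [hS0] at h3
    omega
  choose N C hN1 hN2 hC1 hC2 using fun i => three hV (π i) (hfix i)
  choose L hL1 hL2 using fun i => cocktail (N i) (hN1 i) (hN2 i)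
  obtain ⟨K, hK1, hK2⟩ := complete (V := V) hV
  obtain ⟨t, ht⟩ : ∃ t, k * μ = s + t := ⟨k * μ - s, by omega⟩
  obtain ⟨m, hm⟩ : ∃ m, Fintype.card V = m + 2 := ⟨Fintype.card V - 2, by omega⟩
  let ι := (Fin s × Fin 3) ⊕ ((Fin s × Fin (1 * (Fintype.card V - 2))) ⊕
    (Fin t × Fin (1 * (Fintype.card V - 1))))
  let M : ι → V → V := Sum.elim (fun x => C x.1 x.2)
    (Sum.elim (fun x => L x.1 x.2) (fun x => K x.2))
  have hcard : Fintype.card (Fin (k * r)) = Fintype.card ι := by
    simp only [ι, Fintype.card_sum, Fintype.card_prod, Fintype.card_fin]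
    rw [hk, ht, hm]
    have e1 : m + 2 - 1 = m + 1 := by omega
    have e2 : m + 2 - 2 = m := by omega
    rw [e1, e2]
    ring
  let e := Fintype.equivOfCardEq hcard
  refine ⟨fun i => M (e i), ?_, ?_⟩
  · intro i w
    have h1 : ∀ x, M x (M x w) = w := by
      rintro (x | x | x)
      · exact hC1 _ _ _
      · exact hL1 _ _ _
      · exact hK1 _ _
    exact h1 (e i)
  · intro w z
    have h1 : (univ.filter (fun i => M (e i) w = z)).card = ∑ x, if M x w = z then 1 else 0 := by
      rw [card_filter]
      exact Equiv.sum_comp e (fun x => if M x w = z then 1 else 0)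
    rw [h1, Fintype.sum_sum_type, Fintype.sum_sum_type, Fintype.sum_prod_type,
      Fintype.sum_prod_type, Fintype.sum_prod_type]
    have h2 : ∀ i : Fin s, (∑ a, if M (Sum.inl (i, a)) w = z then 1 else 0) =
        X i w z + X i z w + if N i w = z then 1 else 0 := by
      intro i
      rw [hπ i w z, hπ i z w]
      exact hC2 i w z
    have h3 : ∀ i : Fin s, (∑ j, if M (Sum.inr (Sum.inl (i, j))) w = z then 1 else 0) =
        if w = z ∨ N i w = z then 0 else 1 := by
      intro i
      rw [← hL2 i w z, card_filter]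
      rfl
    have h4 : ∀ i : Fin t, (∑ j, if M (Sum.inr (Sum.inr (i, j))) w = z then 1 else 0) =
        if w = z then 0 else 1 := by
      intro i
      rw [← hK2 w z, card_filter]
      rfl
    rw [sum_congr rfl fun i _ => h2 i, sum_congr rfl fun i _ => h3 i,
      sum_congr rfl fun i _ => h4 i]
    by_cases h5 : w = z
    · subst h5
      have h6 : ∀ i, X i w w = 0 := fun i => by rw [hπ, if_neg (hfix i w)]
      rw [hl, mul_zero]
      simp only [h6, if_neg (hN2 _ w), true_or, if_true, sum_const_zero, add_zero]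
    · have h6 : ∀ i, (if w = z ∨ N i w = z then 0 else 1) + (if N i w = z then 1 else 0) = 1 := by
        intro i
        by_cases h7 : N i w = z
        · rw [if_pos (Or.inr h7), if_pos h7]
        · rw [if_neg (not_or.2 ⟨h5, h7⟩), if_neg h7]
      have h7 : ∑ i : Fin s, ((if w = z ∨ N i w = z then 0 else 1) +
          (if N i w = z then 1 else 0)) = s := by
        rw [sum_congr rfl fun i _ => h6 i]
        simp
      rw [sum_add_distrib] at h7
      have h8 : ∑ i : Fin t, (if w = z then 0 else 1) = t := by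
        rw [if_neg h5]
        simp
      have h9 := hD1 w z
      have h10 := hS1 w z h5
      rw [h8, sum_add_distrib, sum_add_distrib, hX3, hX3, ← h10, ← h9]
      omega

end Pool.Agent.R448.NC
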